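import Mathlib
import Pool.Agent.Lib.helper17.MZ1

set_option autoImplicit false

namespace Pool.Agent.Results.MP_5076ba_lc.No

open FirstOrder FirstOrder.Language

universe u

section Defs

/-- `c` and `c'` have the same complete type over `A` -/
def SameType (L : FirstOrder.Language.{0, 0}) {N : Type u} [L.Structure N] (A : Set N) (c c' : N) :
    Prop :=
  ∀ (n : ℕ) (φ : L.Formula (Unit ⊕ Fin n)) (a : Fin n → N), (∀ i, a i ∈ A) →
    (φ.Realize (Sum.elim (fun _ => c) a) ↔ φ.Realize (Sum.elim (fun _ => c') a))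

/-- model-theoretic algebraic closure -/
def acl (L : FirstOrder.Language.{0, 0}) {N : Type u} [L.Structure N] (A : Set N) : Set N :=
  {c | ∃ (n : ℕ) (φ : L.Formula (Unit ⊕ Fin n)) (a : Fin n → N), (∀ i, a i ∈ A) ∧
    φ.Realize (Sum.elim (fun _ => c) a) ∧ {y | φ.Realize (Sum.elim (fun _ => y) a)}.Finite}

/-- in every model only countably many 1-types over a countable set are realized -/
def OmegaStable {L : FirstOrder.Language.{0, 0}} (T : L.Theory) : Prop :=
  ∀ (N : Type u) [L.Structure N], N ⊨ T → ∀ A : Set N, A.Countable →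
    ∃ C : Set N, C.Countable ∧ ∀ c, ∃ c' ∈ C, SameType L A c c'

/-- `δ(x)` isolates a complete type over the empty set and is a strongly minimal formula -/
def StronglyMinimalType {L : FirstOrder.Language.{0, 0}} (T : L.Theory) (δ : L.Formula Unit) :
    Prop :=
  ∀ (N : Type u) [L.Structure N], N ⊨ T →
    (∀ y y' : N, δ.Realize (fun _ => y) → δ.Realize (fun _ => y') → SameType L ∅ y y') ∧
    {y : N | δ.Realize (fun _ => y)}.Infinite ∧
    ∀ (n : ℕ) (φ : L.Formula (Unit ⊕ Fin n)) (a : Fin n → N),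
      {y : N | δ.Realize (fun _ => y) ∧ φ.Realize (Sum.elim (fun _ => y) a)}.Finite ∨
      {y : N | δ.Realize (fun _ => y) ∧ ¬ φ.Realize (Sum.elim (fun _ => y) a)}.Finite

end Defs

open Pool.Agent.Lib.helper17.MZ

variable {γ : Type}

noncomputable def dF : L.Formula Unit := (linF (fun _ => 1) true).not

lemma r_dF (v : Unit → M) : dF.Realize v ↔ nu (v ()) 0 ≠ 0 := by
  simp [dF, r_linF, rel]

noncomputable def spF [Fintype γ] (c : γ → K) : L.Formula (Unit ⊕ γ) :=
  linF (Sum.elim (fun _ => 1) c) false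

lemma r_spF [Fintype γ] (c : γ → K) (v : Unit ⊕ γ → M) :
    (spF c).Realize v ↔ nu (v (.inl ())) + ∑ i, c i • nu (v (.inr i)) = 0 := by
  simp [spF, r_linF, rel]

lemma eqs {y y' : M} {a : γ → M} (h : ∀ i, y ≠ a i) (h' : ∀ i, y' ≠ a i) (s t : Unit ⊕ γ) :
    Sum.elim (fun _ => y) a s = Sum.elim (fun _ => y) a t ↔
      Sum.elim (fun _ => y') a s = Sum.elim (fun _ => y') a t := by
  rcases s with s | s <;> rcases t with t | t <;> simp [h, h', (h _).symm, (h' _).symm]

lemma g1 [Finite γ] {y y' : M} {a : γ → M} (e : nu y = nu y') (h : ∀ i, y ≠ a i)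
    (h' : ∀ i, y' ≠ a i) : Same (Sum.elim (fun _ : Unit => y) a) (Sum.elim (fun _ => y') a) := by
  have := Fintype.ofFinite γ
  exact same_of (eqs h h') fun c b => by simp [e]

lemma g2 [Fintype γ] {y y' : M} {a : γ → M} (e : nu y 0 = nu y' 0)
    (h : ∀ c : γ → K, nu y + ∑ i, c i • nu (a i) ≠ 0)
    (h' : ∀ c : γ → K, nu y' + ∑ i, c i • nu (a i) ≠ 0) :
    Same (Sum.elim (fun _ : Unit => y) a) (Sum.elim (fun _ => y') a) := by
  classical
  have k : ∀ y : M, (∀ c : γ → K, nu y + ∑ i, c i • nu (a i) ≠ 0) → ∀ i, y ≠ a i := by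
    rintro y h i rfl
    refine h (Pi.single i (-1)) ?_
    rw [Finset.sum_eq_single i (fun j _ hj => by rw [Pi.single_eq_of_ne hj, zero_smul])
      (fun h => (h (Finset.mem_univ _)).elim), Pi.single_eq_same, neg_smul, one_smul, add_neg_cancel]
  refine same_of (eqs (k y h) (k y' h')) fun c b => ?_
  simp only [Fintype.sum_sum_type, Finset.univ_unique, Finset.sum_singleton, Sum.elim_inl,
    Sum.elim_inr]
  rcases K_cases (c (.inl default)) with e' | e' <;> rw [e']
  · simp
  · cases b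
    · simp [rel, h, h']
    · simp [rel, e]

lemma not_span [Fintype γ] {y : M} {a : γ → M} (k : ℕ) (h : nu y k ≠ 0) (h' : ∀ i, nu (a i) k = 0)
    (c : γ → K) : nu y + ∑ i, c i • nu (a i) ≠ 0 := fun e => h (by
  have := DFunLike.congr_fun e k
  simpa [Finsupp.finsetSum_apply, h'] using this)

lemma i1 [Finite γ] {y : M} {a : γ → M} (e : nu y 0 = 0) (h : ∀ i, y ≠ a i) :
    {y' : M | Same (Sum.elim (fun _ : Unit => y') a) (Sum.elim (fun _ => y) a)}.Infinite :=
  ((inf_fibre _ e).sdiff (Set.finite_range a)).mono fun _ hy =>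
    g1 hy.1 (fun i e => hy.2 ⟨i, e.symm⟩) h

lemma i2 [Fintype γ] {y : M} {a : γ → M} (h : ∀ c : γ → K, nu y + ∑ i, c i • nu (a i) ≠ 0) :
    {y' : M | Same (Sum.elim (fun _ : Unit => y') a) (Sum.elim (fun _ => y) a)}.Infinite := by
  have hf : (nu ⁻¹' Set.range fun c : γ → K => -∑ i, c i • nu (a i)) ∩ {y' | y'.1.2 = 0} |>.Finite :=
    Set.Finite.of_finite_image (f := nu) ((Set.finite_range _).subset (by
      rintro _ ⟨x, hx, rfl⟩; exact hx.1)) fun x hx x' hx' e =>
        Subtype.ext (Prod.ext e (hx.2.trans hx'.2.symm))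
  have hi : (mk0 '' (nu '' {y' : M | nu y' 0 = nu y 0})).Infinite :=
    (inf_coord _).2.image fun x _ x' _ e => congrArg nu e
  refine (hi.sdiff hf).mono ?_
  rintro _ ⟨⟨_, ⟨x, hx, rfl⟩, rfl⟩, h2⟩
  exact g2 hx (fun c e => h2 ⟨⟨c, (add_eq_zero_iff_eq_neg.1 e).symm⟩, rfl⟩) h

variable {N : Type u} [L.Structure N] [N ⊨ L.completeTheory M]

lemma inf_tr [Finite γ] {y : N} {a : γ → N} {y0 : M} {a0 : γ → M}
    (h : Same (Sum.elim (fun _ : Unit => y) a) (Sum.elim (fun _ => y0) a0))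
    (hi : {y' : M | Same (Sum.elim (fun _ : Unit => y') a0) (Sum.elim (fun _ => y0) a0)}.Infinite) :
    {y' : N | Same (Sum.elim (fun _ : Unit => y') a) (Sum.elim (fun _ => y) a)}.Infinite := by
  intro hf
  let e := hi.natEmbedding
  obtain ⟨w, hw⟩ := a2 (h.comp Sum.inr) (fun i : Fin (hf.toFinset.card + 1) => (e i).1)
  have h1 : ∀ i, w i ∈ hf.toFinset := fun i => by
    have := hw.comp (Sum.map (fun _ : Unit => i) id)
    rw [Set.Finite.mem_toFinset]
    refine Same.trans ?_ ((e i).2.trans h.symm)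
    convert this using 1 <;> funext x <;> rcases x with x | x <;> rfl
  have h2 : Function.Injective w := fun i j hij => by
    have := (hw.eq (.inl i) (.inl j)).1 hij
    exact Fin.ext (e.injective (Subtype.ext this))
  have := Finset.card_le_card_of_injOn (s := Finset.univ) w (fun i _ => h1 i) h2.injOn
  simp at this

omit [N ⊨ L.completeTheory M] in
lemma not_acl [Finite γ] {y : N} {a : γ → N}
    (hi : {y' : N | Same (Sum.elim (fun _ : Unit => y') a) (Sum.elim (fun _ => y) a)}.Infinite)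
    {A : Set N} (hA : A ⊆ Set.range a) : y ∉ acl L A := by
  rintro ⟨n, φ, u, hu, h1, h2⟩
  choose g hg using fun i => hA (hu i)
  refine hi (h2.subset fun y' hy => ?_)
  have e : ∀ z : N, Sum.elim (fun _ : Unit => z) a ∘ Sum.map id g = Sum.elim (fun _ => z) u :=
    fun z => by funext x; rcases x with x | x <;> simp [hg]
  have := hy.comp (Sum.map id g) φ
  rw [e, e] at this
  exact this.2 h1

lemma two [Finite γ] (y y' : N) (a : γ → N) : ∃ (y0 y0' : M) (a0 : γ → M),
    Same (Sum.elim (fun _ : Unit => y) a) (Sum.elim (fun _ => y0) a0) ∧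
    Same (Sum.elim (fun _ : Unit => y') a) (Sum.elim (fun _ => y0') a0) ∧ (y0 = y0' → y = y') := by
  obtain ⟨v, hv⟩ := a1 (Sum.elim (Sum.elim (fun _ : Unit => y) (fun _ : Unit => y')) a)
  refine ⟨v (.inl (.inl ())), v (.inl (.inr ())), v ∘ Sum.inr, ?_, ?_,
    (hv.eq (.inl (.inl ())) (.inl (.inr ()))).2⟩
  · convert hv.comp (Sum.map Sum.inl id) using 1 <;> funext x <;> rcases x with x | x <;> rfl
  · convert hv.comp (Sum.map Sum.inr id) using 1 <;> funext x <;> rcases x with x | x <;> rfl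

omit [N ⊨ L.completeTheory M] in
lemma d_tr {y : N} {a : γ → N} {y0 : M} {a0 : γ → M}
    (h : Same (Sum.elim (fun _ : Unit => y) a) (Sum.elim (fun _ => y0) a0)) :
    dF.Realize (fun _ => y) ↔ nu y0 0 ≠ 0 := (h.comp Sum.inl dF).trans (r_dF _)

lemma un [Fintype γ] {y y' : N} {a : γ → N} {c : γ → K} (h : dF.Realize (fun _ => y))
    (h1 : (spF c).Realize (Sum.elim (fun _ => y) a))
    (h2 : (spF c).Realize (Sum.elim (fun _ => y') a)) : y = y' := by
  obtain ⟨y0, y0', a0, s, s', e⟩ := two y y' a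
  rw [s, r_spF] at h1
  rw [s', r_spF] at h2
  exact e (eq_of_D ((d_tr s).1 h) (add_right_cancel (h1.trans h2.symm)))

lemma gn2 [Fintype γ] {y y' : N} {a : γ → N}
    (h : dF.Realize (fun _ => y) ↔ dF.Realize (fun _ => y'))
    (h1 : ∀ c, ¬ (spF c).Realize (Sum.elim (fun _ => y) a))
    (h2 : ∀ c, ¬ (spF c).Realize (Sum.elim (fun _ => y') a)) :
    Same (Sum.elim (fun _ : Unit => y) a) (Sum.elim (fun _ => y') a) := by
  obtain ⟨y0, y0', a0, s, s', -⟩ := two y y' a
  refine s.trans ((g2 (y := y0) (y' := y0') ?_ (fun c e => h1 c ((s _).2 ((r_spF _ _).2 e)))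
    (fun c e => h2 c ((s' _).2 ((r_spF _ _).2 e)))).trans s'.symm)
  rw [d_tr s, d_tr s'] at h
  revert h
  generalize nu y0 0 = p
  generalize nu y0' 0 = q
  revert p q; decide

lemma gn1 {β : Type} [Finite γ] [Fintype β] {y y' : N} {a : γ → N} {b : β → N} {c : β → K}
    (k : ∀ i, y ≠ a i) (k' : ∀ i, y' ≠ a i)
    (h1 : (spF c).Realize (Sum.elim (fun _ => y) b))
    (h2 : (spF c).Realize (Sum.elim (fun _ => y') b)) :
    Same (Sum.elim (fun _ : Unit => y) a) (Sum.elim (fun _ => y') a) := by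
  obtain ⟨y0, y0', a0, s, s', -⟩ := two y y' (Sum.elim a b)
  have e : ∀ {X : Type u} {δ : Type} (z : X) (v : γ ⊕ β → X) (f : δ → γ ⊕ β),
      Sum.elim (fun _ : Unit => z) v ∘ Sum.map id f = Sum.elim (fun _ => z) (v ∘ f) :=
    fun z v f => by funext x; rcases x with x | x <;> rfl
  have e0 : ∀ {δ : Type} (z : M) (v : γ ⊕ β → M) (f : δ → γ ⊕ β),
      Sum.elim (fun _ : Unit => z) v ∘ Sum.map id f = Sum.elim (fun _ => z) (v ∘ f) :=
    fun z v f => by funext x; rcases x with x | x <;> rfl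
  have t := s.comp (Sum.map id Sum.inl)
  have t' := s'.comp (Sum.map id Sum.inl)
  have r := s.comp (Sum.map id Sum.inr) (spF c)
  have r' := s'.comp (Sum.map id Sum.inr) (spF c)
  rw [e, e0] at t t' r r'
  rw [r_spF] at r r'
  exact t.trans ((g1 (add_right_cancel ((r.1 h1).trans (r'.1 h2).symm))
    (fun i h => k i ((t.eq (.inl ()) (.inr i)).2 h))
    (fun i h => k' i ((t'.eq (.inl ()) (.inr i)).2 h))).trans t'.symm)

lemma stable (A : Set N) (hA : A.Countable) :
    ∃ C : Set N, C.Countable ∧ ∀ c, ∃ c' ∈ C, SameType L A c c' := by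
  classical
  have := hA.to_subtype
  let P : N → (Σ m : ℕ, (Fin m → A) × (Fin m → K)) → Prop := fun y t =>
    (spF t.2.2).Realize (Sum.elim (fun _ => y) fun i => (t.2.1 i).1)
  let κ : N → A ⊕ (Prop × Option (Σ m : ℕ, (Fin m → A) × (Fin m → K))) := fun y =>
    if h : y ∈ A then .inl ⟨y, h⟩ else
      .inr (dF.Realize (fun _ => y), if h : ∃ t, P y t then some h.choose else none)
  have key : ∀ y y', κ y = κ y' → SameType L A y y' := by
    intro y y' e n φ a ha
    by_cases h : y ∈ A <;> by_cases h' : y' ∈ A <;> simp only [κ, h, h', dite_true, dite_false,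
      reduceCtorEq, Sum.inl.injEq, Sum.inr.injEq, Subtype.mk.injEq, Prod.mk.injEq] at e
    · rw [e]
    obtain ⟨e1, e2⟩ := e
    by_cases k : ∃ t, P y t <;> by_cases k' : ∃ t, P y' t <;>
      simp only [k, k', dite_true, dite_false, reduceCtorEq, Option.some.injEq] at e2
    · have k1 := k.choose_spec
      have k2 := k'.choose_spec
      rw [← e2] at k2
      exact gn1 (a := a) (fun i (e : y = a i) => h (e ▸ ha i))
        (fun i (e : y' = a i) => h' (e ▸ ha i)) k1 k2 φ
    · exact gn2 (iff_of_eq e1) (fun c hc => k ⟨⟨n, fun i => ⟨a i, ha i⟩, c⟩, hc⟩)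
        (fun c hc => k' ⟨⟨n, fun i => ⟨a i, ha i⟩, c⟩, hc⟩) φ
  rcases isEmpty_or_nonempty N with hN | hN
  · exact ⟨∅, Set.countable_empty, fun c => isEmptyElim c⟩
  exact ⟨Set.range (Function.invFun κ), Set.countable_range _, fun c =>
    ⟨_, ⟨κ c, rfl⟩, key _ _ (Function.invFun_eq ⟨c, rfl⟩).symm⟩⟩

lemma strmin :
    (∀ y y' : N, dF.Realize (fun _ => y) → dF.Realize (fun _ => y') → SameType L ∅ y y') ∧
    {y : N | dF.Realize (fun _ => y)}.Infinite ∧
    ∀ (n : ℕ) (φ : L.Formula (Unit ⊕ Fin n)) (a : Fin n → N),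
      {y : N | dF.Realize (fun _ => y) ∧ φ.Realize (Sum.elim (fun _ => y) a)}.Finite ∨
      {y : N | dF.Realize (fun _ => y) ∧ ¬ φ.Realize (Sum.elim (fun _ => y) a)}.Finite := by
  refine ⟨fun y y' h h' n φ a ha => ?_, ?_, fun n φ a => ?_⟩
  · have : IsEmpty (Fin n) := ⟨fun i => ha i⟩
    obtain ⟨y0, y0', a0, s, s', -⟩ := two y y' a
    have k := (d_tr s).1 h
    have k' := (d_tr s').1 h'
    refine s.trans ((g2 ?_ (not_span 0 k isEmptyElim) (not_span 0 k' isEmptyElim)).trans s'.symm) φ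
    revert k k'
    generalize nu y0 0 = p
    generalize nu y0' 0 = q
    revert p q; decide
  · obtain ⟨w, hw⟩ := a2 (same_empty (Empty.elim : Empty → N) (Empty.elim : Empty → M))
      (fun _ : Unit => mk0 (Finsupp.single 0 1))
    have h0 : nu (mk0 (Finsupp.single 0 1)) 0 ≠ 0 := by simp [nu, mk0]
    exact (inf_tr (y := w ()) hw (i2 (not_span 0 h0 isEmptyElim))).mono fun y hy =>
      (hy.comp Sum.inl dF).2 ((d_tr (y := w ()) hw).2 h0)
  · have hE : {y : N | dF.Realize (fun _ => y) ∧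
        ∃ c, (spF c).Realize (Sum.elim (fun _ => y) a)}.Finite := by
      refine (Set.finite_iUnion fun c : Fin n → K => Set.Subsingleton.finite
        (s := {y : N | dF.Realize (fun _ => y) ∧ (spF c).Realize (Sum.elim (fun _ => y) a)})
        fun y hy y' hy' => un hy.1 hy.2 hy'.2).subset ?_
      rintro y ⟨h, c, hc⟩
      exact Set.mem_iUnion.2 ⟨c, h, hc⟩
    by_cases h : ∃ y : N, dF.Realize (fun _ => y) ∧ φ.Realize (Sum.elim (fun _ => y) a) ∧
      ¬ ∃ c, (spF c).Realize (Sum.elim (fun _ => y) a)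
    · obtain ⟨y, h1, h2, h3⟩ := h
      refine Or.inr (hE.subset fun y' hy => ⟨hy.1, ?_⟩)
      by_contra h4
      exact hy.2 ((gn2 (iff_of_true h1 hy.1) (not_exists.1 h3) (not_exists.1 h4) φ).1 h2)
    · refine Or.inl (hE.subset fun y hy => ⟨hy.1, ?_⟩)
      by_contra h4
      exact h ⟨y, hy.1, hy.2, h4⟩

lemma fails (n : ℕ) : ∃ (c b : N) (A : Set N), dF.Realize (fun _ => c) ∧ acl L A = A ∧
    c ∈ acl L (A ∪ {b}) ∧ ∀ A' : Finset N, ↑A' ⊆ A → A'.card ≤ n → c ∉ acl L (↑A' ∪ {b}) := by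
  classical
  let t0 : Fin (n + 2) → M := fun i => mk0 (Finsupp.single i 1)
  let c0 : M := mk0 (-∑ i, nu (t0 i))
  have hc0 : ∀ i : Fin (n + 2), nu c0 i ≠ 0 := fun i => by
    have : (∑ j, nu (t0 j)) i = 1 := by
      simp [t0, nu, mk0, Finsupp.finsetSum_apply, Finsupp.single_apply, Fin.val_inj]
    change (-∑ i, nu (t0 i)) i ≠ 0
    rw [Finsupp.neg_apply, this]; decide
  obtain ⟨w, hw⟩ := a2 (same_empty (Empty.elim : Empty → N) (Empty.elim : Empty → M))
    (Sum.elim (fun _ : Unit => c0) t0)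
  let c := w (.inl ())
  let t : Fin (n + 2) → N := w ∘ Sum.inr
  have s : Same (Sum.elim (fun _ : Unit => c) t) (Sum.elim (fun _ => c0) t0) := by
    convert hw.comp Sum.inl using 1 <;> funext x <;> rcases x with x | x <;> rfl
  have sub : ∀ {δ : Type} (g : δ → Fin (n + 2)),
      Same (Sum.elim (fun _ : Unit => c) (t ∘ g)) (Sum.elim (fun _ => c0) (t0 ∘ g)) := fun g => by
    convert s.comp (Sum.map id g) using 1 <;> funext x <;> rcases x with x | x <;> rfl
  have hd : dF.Realize (fun _ => c) := (d_tr s).2 (hc0 0)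
  have ht : Function.Injective t := fun i j e => by
    have : (Finsupp.single i.1 1 : W) i.1 = (Finsupp.single j.1 1 : W) i.1 :=
      DFunLike.congr_fun (congrArg nu ((s.eq (.inr i) (.inr j)).1 e)) i.1
    by_contra h
    simp [Finsupp.single_apply, Fin.val_inj, Ne.symm h] at this
  refine ⟨c, t 0, Set.range (t ∘ Fin.succ), hd, Set.Subset.antisymm (fun y hy => ?_) ?_, ?_, ?_⟩
  · by_contra h
    obtain ⟨y0, hy0⟩ := a3 ((sub Fin.succ).comp Sum.inr) (fun _ : Unit => y)
    refine not_acl (inf_tr (y0 := y0 ()) hy0 ?_) subset_rfl hy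
    by_cases k : nu (y0 ()) 0 = 0
    · exact i1 k fun i e => h ⟨i, ((hy0.eq (.inl ()) (.inr i)).2 e).symm⟩
    · exact i2 (not_span 0 k fun i => by
        change (Finsupp.single (i.1 + 1) 1 : W) 0 = 0
        simp)
  · intro y hy
    exact ⟨1, (Term.var (.inl ())).equal (Term.var (.inr 0)), fun _ => y, fun _ => hy, by simp,
      by simp⟩
  · have hs : (spF fun _ => 1).Realize (Sum.elim (fun _ : Unit => c) t) :=
      (s _).2 ((r_spF _ _).2 (by
        change -∑ i, nu (t0 i) + ∑ i, (1 : K) • nu (t0 i) = 0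
        simp))
    refine ⟨n + 2, spF fun _ => 1, t, fun i => ?_, hs,
      (Set.finite_singleton c).subset fun y hy => (un hd hs hy).symm⟩
    refine Fin.cases (Or.inr rfl) (fun j => Or.inl ⟨j, rfl⟩) i
  · intro A' h1 h2
    obtain ⟨j, hj⟩ : ∃ j : Fin (n + 1), t j.succ ∉ A' := by
      by_contra h
      push Not at h
      have := Finset.card_le_card_of_injOn (s := Finset.univ) (t ∘ Fin.succ) (fun i _ => h i)
        (ht.comp (Fin.succ_injective _)).injOn
      simp at this; omega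
    refine not_acl (inf_tr (sub (Subtype.val : {i // i ≠ j.succ} → _))
      (i2 (not_span j.succ (hc0 _) fun i => ?_))) ?_
    · have := i.2
      simp only [t0, nu, mk0, Function.comp]
      exact Finsupp.single_eq_of_ne (fun e => this (Fin.ext e.symm))
    · rintro y (hy | rfl)
      · obtain ⟨i, rfl⟩ := h1 hy
        exact ⟨⟨i.succ, fun e => hj (e ▸ hy)⟩, rfl⟩
      · exact ⟨⟨0, (Fin.succ_ne_zero j).symm⟩, rfl⟩

theorem result : ∃ (L : FirstOrder.Language.{0, 0}) (T : L.Theory) (δ : L.Formula Unit),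
    Countable L.Symbols ∧ T.IsComplete ∧ Cardinal.aleph0.{u}.Categorical T ∧ OmegaStable.{u} T ∧
    StronglyMinimalType.{u} T δ ∧
    ∀ (N : Type u) [L.Structure N], N ⊨ T → ∀ n : ℕ, ∃ (c b : N) (A : Set N),
      δ.Realize (fun _ => c) ∧ acl L A = A ∧ c ∈ acl L (A ∪ {b}) ∧
        ∀ A' : Finset N, ↑A' ⊆ A → A'.card ≤ n → c ∉ acl L (↑A' ∪ {b}) := by
  refine ⟨L, L.completeTheory M, dF, ?_, completeTheory.isComplete _ _, fun N N' h h' => ?_,
    fun N _ _ => stable, fun N _ _ => strmin, fun N _ _ => fails⟩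
  · change Countable ((Σ _ : ℕ, Empty) ⊕ (Σ n : ℕ, (Fin n → K) × Bool))
    infer_instance
  · have := Cardinal.mk_le_aleph0_iff.1 h.le
    have := Cardinal.mk_le_aleph0_iff.1 h'.le
    exact iso

end Pool.Agent.Results.MP_5076ba_lc.No
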